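import Pool.Agent.Q88.BiFree.Final

/-!
# MP_fc6efe_an, Q1: the bi-free Wasserstein distance violates the triangle inequality

All definitions are in `Pool.Agent.Q88.BiFree.Defs`.

For every constant `K` there are three tracially bi-partite systems (with `18` left and `18` right
variables, even in one common space) with `K (W₂(S₁,S₂) + W₂(S₂,S₃)) < W₂(S₁,S₃)`. For `K = 1` this
is the negation of the triangle inequality; for general `K` it says that not even a
quasi-triangle inequality holds. The infima are taken over nonempty sets.

Idea.  The left variables generate the `3 × 3` matrices in all three systems.  The right variables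
of `S₁` are `s` times generators of the `3 × 3` matrices, the joint state being the antisymmetric
(Holevo-Werner) state; those of `S₃` are `s` times generators, in maximally entangled position; and
those of `S₂` vanish. Then `W₂(S₁,S₂)` and `W₂(S₂,S₃)` are `O(s)`. In a joint space for `S₁` and
`S₃` with nearly equal left variables, the right algebra would contain two systems `e`, `f` of
`3 × 3` matrix units for which `u i j = f 1 i * e j 1` is nearly an antisymmetric unitary `3 × 3`
matrix with entries in a tracial algebra: this is impossible (`core`).
-/

namespace Pool.Agent.Results.MP_fc6efe_an.TriangleFails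

open Q88.BiFree

universe u

/-- The bi-free Wasserstein distance violates the triangle inequality, with any constant. -/
theorem result (K : ℝ) : ∃ (P : Space.{u}) (S₁ S₂ S₃ : Sys P 18 18),
    (costs S₁ S₂).Nonempty ∧ (costs S₂ S₃).Nonempty ∧ (costs S₁ S₃).Nonempty ∧
    K * (W2 S₁ S₂ + W2 S₂ S₃) < W2 S₁ S₃ :=
  ⟨model, main K⟩

end Pool.Agent.Results.MP_fc6efe_an.TriangleFails
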